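import Pool.Agent.Helper51.REC.Goals2
import Pool.Agent.Helper59.RS.PSM
import Pool.Agent.Helper58.RS.EUL
import Pool.Agent.Helper61.RS.ZET
import Pool.Agent.Helper99.RS.QEX
import Pool.Agent.Helper88.RS.DG1
import Pool.Agent.Helper84.RSP.KUM
import Pool.Agent.Helper40.RD.TRF
import Pool.Agent.Helper42.RD.VAL

/-!
# Project REC, packet L_LOW: lower density of the primes at which given elements are `p`-th powers
-/

set_option autoImplicit false

namespace Pool.Agent.Helper8.REC

open NumberField Module IsDedekindDomain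
open Pool.Agent.Helper38.RS (pz)
open Pool.Agent.Helper51.RP (LocPow)
open Pool.Agent.Helper40.RS (bel)
open Pool.Agent.Helper40.RD (valW)
open Pool.Agent.Helper99.RS (pz_mono pz_union pz_finite pz_eq summable_norm finite_bad)

theorem psmE : Pool.Agent.Helper38.RS.S_PSM :=
  Pool.Agent.Helper59.RS.s_psm Pool.Agent.Helper58.RS.s_eul
    (Pool.Agent.Helper61.RS.s_zet Pool.Agent.Helper58.RS.s_eul)

/-- Adjunction of `p`-th roots. -/
theorem exists_tower (p : ℕ) (hp : p.Prime) (F : Type) [Field F] [NumberField F] :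
    ∀ (m : ℕ) (y : Fin m → F), ∃ (E : Type) (_ : Field E) (_ : NumberField E) (_ : Algebra F E)
      (r : Fin m → E), finrank F E ≤ p ^ m ∧ ∀ i, r i ^ p = algebraMap F E (y i) := by
  intro m
  induction m with
  | zero =>
    intro y
    refine ⟨F, inferInstance, inferInstance, Algebra.id F, fun i => i.elim0, ?_, fun i => i.elim0⟩
    rw [finrank_self, pow_zero]
  | succ m ih =>
    intro y
    obtain ⟨E, _, _, _, r, hr1, hr2⟩ := ih (fun i => y i.castSucc)
    by_cases h : ∃ z : E, z ^ p = algebraMap F E (y (Fin.last m))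
    · obtain ⟨z, hz⟩ := h
      refine ⟨E, inferInstance, inferInstance, inferInstance, Fin.snoc r z, ?_, ?_⟩
      · exact hr1.trans (Nat.pow_le_pow_right hp.pos (Nat.le_succ m))
      · intro i
        refine Fin.lastCases ?_ (fun j => ?_) i
        · rw [Fin.snoc_last]
          exact hz
        · rw [Fin.snoc_castSucc]
          exact hr2 j
    · obtain ⟨E', _, _, _, r', h1, h2⟩ := Pool.Agent.Helper84.RSP.exists_ext p hp E _ h
      let _ : Algebra F E' := ((algebraMap E E').comp (algebraMap F E)).toAlgebra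
      have hst : IsScalarTower F E E' := IsScalarTower.of_algebraMap_eq fun x => rfl
      refine ⟨E', inferInstance, inferInstance, inferInstance,
        Fin.snoc (fun i => algebraMap E E' (r i)) r', ?_, ?_⟩
      · rw [← Module.finrank_mul_finrank F E E', h1, pow_succ]
        exact Nat.mul_le_mul_right p hr1
      · intro i
        refine Fin.lastCases ?_ (fun j => ?_) i
        · rw [Fin.snoc_last]
          exact h2
        · rw [Fin.snoc_castSucc, ← map_pow, hr2 j]
          rfl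

section ext

variable {F E : Type} [Field F] [NumberField F] [Field E] [NumberField E] [Algebra F E]

theorem absNorm_bel_le (w : HeightOneSpectrum (𝓞 E)) :
    Ideal.absNorm (bel F w).asIdeal ≤ Ideal.absNorm w.asIdeal := by
  have hv : (bel F w).asIdeal.IsMaximal := (bel F w).isMaximal
  have hw : w.asIdeal.IsMaximal := w.isMaximal
  have hl : w.asIdeal.LiesOver (bel F w).asIdeal := inferInstance
  let _ : Field (𝓞 F ⧸ (bel F w).asIdeal) := Ideal.Quotient.field _
  have hfin : Finite (𝓞 E ⧸ w.asIdeal) := inferInstance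
  rw [Ideal.absNorm_apply, Ideal.absNorm_apply, Submodule.cardQuot_apply,
    Submodule.cardQuot_apply]
  exact Nat.card_le_card_of_injective
    (algebraMap (𝓞 F ⧸ (bel F w).asIdeal) (𝓞 E ⧸ w.asIdeal)) (RingHom.injective _)

theorem card_fibre (T : Finset (HeightOneSpectrum (𝓞 E))) (v : HeightOneSpectrum (𝓞 F))
    [DecidableEq (HeightOneSpectrum (𝓞 F))] :
    (T.filter (fun w => bel F w = v)).card ≤ finrank F E := by
  classical
  have hm : v.asIdeal.IsMaximal := v.isMaximal
  have hnz : NoZeroSMulDivisors (𝓞 F) (𝓞 E) := by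
    constructor
    intro c x hcx
    rw [Algebra.smul_def, mul_eq_zero] at hcx
    rcases hcx with h0 | h0
    · left
      apply RingOfIntegers.coe_eq_zero_iff.1
      have h2 := congrArg (algebraMap (𝓞 E) E) h0
      rw [map_zero] at h2
      have h3 : algebraMap (𝓞 E) E (algebraMap (𝓞 F) (𝓞 E) c) = algebraMap F E (c : F) := rfl
      rw [h3] at h2
      exact (map_eq_zero (algebraMap F E)).1 h2
    · exact Or.inr h0
  have h1 : (IsDedekindDomain.primesOverFinset v.asIdeal (𝓞 E)).card ≤ finrank F E :=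
    Ideal.card_primesOverFinset_le_finrank (S := 𝓞 E) (K := F) (L := E) v.ne_bot
  refine le_trans ?_ h1
  refine Finset.card_le_card_of_injOn (fun w => w.asIdeal) ?_ ?_
  · intro w hw
    have hw' : bel F w = v := (Finset.mem_filter.mp (Finset.mem_coe.mp hw)).2
    refine Finset.mem_coe.mpr
      ((IsDedekindDomain.mem_primesOverFinset_iff v.ne_bot (𝓞 E)).mpr ?_)
    refine ⟨w.isPrime, ?_⟩
    rw [← hw']
    infer_instance
  · intro w _ w' _ hww
    exact HeightOneSpectrum.ext hww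

/-- Every algebraic integer is congruent to a rational integer if the norm is prime. -/
theorem exists_int (w : HeightOneSpectrum (𝓞 E)) (hw : (Ideal.absNorm w.asIdeal).Prime)
    (c : 𝓞 E) : ∃ n : ℤ, c - (n : 𝓞 E) ∈ w.asIdeal := by
  have hp : Fact (Ideal.absNorm w.asIdeal).Prime := ⟨hw⟩
  have hcard : Nat.card (𝓞 E ⧸ w.asIdeal) = Ideal.absNorm w.asIdeal := by
    rw [Ideal.absNorm_apply, Submodule.cardQuot_apply]
  have hne : (1 : 𝓞 E ⧸ w.asIdeal) ≠ 0 := by
    have hm : w.asIdeal.IsPrime := w.isPrime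
    exact one_ne_zero
  have h1 : Ideal.Quotient.mk w.asIdeal c ∈ AddSubgroup.zmultiples (1 : 𝓞 E ⧸ w.asIdeal) :=
    mem_zmultiples_of_prime_card hcard hne
  obtain ⟨n, hn⟩ := AddSubgroup.mem_zmultiples_iff.1 h1
  refine ⟨n, ?_⟩
  rw [← Ideal.Quotient.eq, ← hn, map_intCast, zsmul_one]

theorem locPow_bel (p : ℕ) (w : HeightOneSpectrum (𝓞 E)) (hw : (Ideal.absNorm w.asIdeal).Prime)
    (y : F) (r : E) (hr : r ^ p = algebraMap F E y) (hr1 : w.valuation E r = 1) :
    LocPow p (bel F w) y := by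
  obtain ⟨c, hc, hc2⟩ := Pool.Agent.Helper42.RD.exists_int_close w hr1
  obtain ⟨n, hn⟩ := exists_int w hw c
  have hnw : (n : 𝓞 E) ∉ w.asIdeal := by
    intro h
    apply hc
    have := w.asIdeal.add_mem hn h
    rwa [sub_add_cancel] at this
  have hvn : w.valuation E ((n : 𝓞 E) : E) = 1 := Pool.Agent.Helper42.RD.val_of_notMem w hnw
  have hn0 : ((n : 𝓞 E) : E) ≠ 0 := by
    intro h0
    rw [h0, map_zero] at hvn
    exact zero_ne_one hvn
  have hr0 : r ≠ 0 := by
    intro h0
    rw [h0, map_zero] at hr1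
    exact zero_ne_one hr1
  have h1 : w.valuation E ((c : E) / ((n : 𝓞 E) : E) - 1) < 1 :=
    Pool.Agent.Helper42.RD.val_div_of_sub_mem w hnw hn
  have hc0 : (c : E) ≠ 0 := by
    intro h0
    rw [h0, zero_div, zero_sub, Valuation.map_neg, map_one] at h1
    exact lt_irrefl _ h1
  have h2 : w.valuation E (r / ((n : 𝓞 E) : E) - 1) < 1 := by
    have h3 := Pool.Agent.Helper42.RD.val_mul_sub w h1
      (Pool.Agent.Helper42.RD.val_inv_sub w hc2)
    have e : (c : E) / ((n : 𝓞 E) : E) * ((c : E) / r)⁻¹ = r / ((n : 𝓞 E) : E) := by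
      field_simp
    rwa [e] at h3
  have h4 := Pool.Agent.Helper42.RD.val_pow_sub w h2 p
  refine ⟨((n : F))⁻¹, ?_⟩
  have e : (r / ((n : 𝓞 E) : E)) ^ p - 1 = algebraMap F E (y * ((n : F))⁻¹ ^ p - 1) := by
    rw [div_pow, hr, map_sub, map_mul, map_pow, map_inv₀, map_one, map_intCast]
    rw [div_eq_mul_inv, inv_pow]
    congr 3
  rw [e, valW] at h4
  by_contra hcon
  rw [not_lt] at hcon
  exact absurd h4 (not_lt.2 (one_le_pow₀ hcon))

/-- Comparison of the sums. -/
theorem pz_le (n : ℕ) (hn : finrank F E ≤ n) (W : Set (HeightOneSpectrum (𝓞 E)))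
    (A : Set (HeightOneSpectrum (𝓞 F))) (h : ∀ w ∈ W, bel F w ∈ A) (s : ℝ) (hs : 1 < s) :
    pz W s ≤ (n : ℝ) * pz A s := by
  classical
  rw [pz_eq]
  refine Summable.tsum_le_of_sum_le ((summable_norm s hs).indicator _) fun T => ?_
  rw [← Finset.sum_filter_add_sum_filter_not T (fun w => w ∈ W)]
  have h0 : ∑ w ∈ T.filter (fun w => ¬ w ∈ W), W.indicator
      (fun w : HeightOneSpectrum (𝓞 E) => (Ideal.absNorm w.asIdeal : ℝ) ^ (-s)) w = 0 :=
    Finset.sum_eq_zero fun w hw => Set.indicator_of_notMem (Finset.mem_filter.1 hw).2 _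
  rw [h0, add_zero]
  set T' := T.filter (fun w => w ∈ W) with hT'
  have h1 : ∑ w ∈ T', W.indicator
      (fun w : HeightOneSpectrum (𝓞 E) => (Ideal.absNorm w.asIdeal : ℝ) ^ (-s)) w ≤
      ∑ w ∈ T', (Ideal.absNorm (bel F w).asIdeal : ℝ) ^ (-s) := by
    refine Finset.sum_le_sum fun w hw => ?_
    rw [Set.indicator_of_mem (Finset.mem_filter.1 hw).2]
    have hb : (0 : ℝ) < (Ideal.absNorm (bel F w).asIdeal : ℝ) := by
      have h2 : Ideal.absNorm (bel F w).asIdeal ≠ 0 := by
        rw [Ne, Ideal.absNorm_eq_zero_iff]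
        exact (bel F w).ne_bot
      exact_mod_cast Nat.pos_of_ne_zero h2
    exact Real.rpow_le_rpow_of_nonpos hb (by exact_mod_cast absNorm_bel_le w) (by linarith)
  refine h1.trans ?_
  have h2 : ∑ w ∈ T', (Ideal.absNorm (bel F w).asIdeal : ℝ) ^ (-s) =
      ∑ v ∈ T'.image (bel F), ∑ w ∈ T'.filter (fun w => bel F w = v),
        (Ideal.absNorm (bel F w).asIdeal : ℝ) ^ (-s) :=
    (Finset.sum_fiberwise_of_maps_to (fun w hw => Finset.mem_image_of_mem (bel F) hw) _).symm
  have h3 : ∀ v ∈ T'.image (bel F), ∑ w ∈ T'.filter (fun w => bel F w = v),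
      (Ideal.absNorm (bel F w).asIdeal : ℝ) ^ (-s) ≤
        (n : ℝ) * (Ideal.absNorm v.asIdeal : ℝ) ^ (-s) := by
    intro v _
    have h4 : ∑ w ∈ T'.filter (fun w => bel F w = v),
        (Ideal.absNorm (bel F w).asIdeal : ℝ) ^ (-s) =
        ∑ w ∈ T'.filter (fun w => bel F w = v), (Ideal.absNorm v.asIdeal : ℝ) ^ (-s) := by
      refine Finset.sum_congr rfl fun w hw => ?_
      rw [(Finset.mem_filter.mp hw).2]
    rw [h4, Finset.sum_const, nsmul_eq_mul]
    refine mul_le_mul_of_nonneg_right ?_ (by positivity)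
    exact_mod_cast (card_fibre T' v).trans hn
  rw [h2]
  refine (Finset.sum_le_sum h3).trans ?_
  rw [← Finset.mul_sum]
  refine mul_le_mul_of_nonneg_left ?_ (Nat.cast_nonneg n)
  rw [pz_eq]
  have h5 : ∑ v ∈ T'.image (bel F), (Ideal.absNorm v.asIdeal : ℝ) ^ (-s) =
      ∑ v ∈ T'.image (bel F), A.indicator
        (fun v : HeightOneSpectrum (𝓞 F) => (Ideal.absNorm v.asIdeal : ℝ) ^ (-s)) v := by
    refine Finset.sum_congr rfl fun v hv => ?_
    obtain ⟨w, hw, rfl⟩ := Finset.mem_image.1 hv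
    rw [Set.indicator_of_mem (h w (Finset.mem_filter.1 hw).2)]
  rw [h5]
  exact ((summable_norm s hs).indicator _).sum_le_tsum _
    (fun v _ => Set.indicator_nonneg (fun v _ => by positivity) v)

end ext

theorem l_low : Pool.Agent.Helper51.REC.L_LOW := by
  classical
  intro p hpf F _ _ ε hε m y Z hZ
  have hp : p.Prime := hpf.out
  obtain ⟨E, _, _, _, r, hE, hr⟩ := exists_tower p hp F m (fun i => (y i : F))
  obtain ⟨C₁, hC₁⟩ := psmE E
  obtain ⟨C₂, hC₂⟩ := Pool.Agent.Helper88.RS.s_dg1 E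
  have hr0 : ∀ i, r i ≠ 0 := by
    intro i h0
    have h1 := hr i
    rw [h0, zero_pow hp.ne_zero] at h1
    exact (y i).ne_zero ((map_eq_zero (algebraMap F E)).1 h1.symm)
  have hpE : (p : E) ≠ 0 := Nat.cast_ne_zero.2 hp.ne_zero
  have hz : ∀ v : HeightOneSpectrum (𝓞 F), ∃ a : 𝓞 F, a ∈ v.asIdeal ∧ a ≠ 0 := by
    intro v
    obtain ⟨a, ha, ha0⟩ := (Submodule.ne_bot_iff _).1 v.ne_bot
    exact ⟨a, ha, ha0⟩
  choose a ha ha0 using hz
  have haE : ∀ v, algebraMap F E (a v : F) ≠ 0 := by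
    intro v h
    have h1 := (map_eq_zero (algebraMap F E)).1 h
    exact ha0 v (RingOfIntegers.coe_eq_zero_iff.1 h1)
  set R : Set (HeightOneSpectrum (𝓞 E)) :=
    ({w | w.valuation E (p : E) ≠ 1} ∪ ⋃ i, {w | w.valuation E (r i) ≠ 1}) ∪
      ⋃ v ∈ Z, {w | w.valuation E (algebraMap F E (a v : F)) ≠ 1} with hR
  have hRfin : R.Finite := by
    refine Set.Finite.union (Set.Finite.union (finite_bad hpE) ?_) ?_
    · exact Set.finite_iUnion fun i => finite_bad (hr0 i)
    · exact Set.Finite.biUnion hZ fun v _ => finite_bad (haE v)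
  set P : Set (HeightOneSpectrum (𝓞 E)) := {w | ¬ (Ideal.absNorm w.asIdeal).Prime} with hP
  set A : Set (HeightOneSpectrum (𝓞 F)) := {v : HeightOneSpectrum (𝓞 F) | v ∉ Z ∧
        v.valuation F (p : F) = 1 ∧ ∀ i, LocPow p v (y i : F)} with hA
  have hW : ∀ w ∈ (R ∪ P)ᶜ, bel F w ∈ A := by
    intro w hw
    rw [Set.mem_compl_iff, Set.mem_union, not_or] at hw
    obtain ⟨hw1, hw2⟩ := hw
    rw [hR, Set.mem_union, Set.mem_union, not_or, not_or] at hw1
    obtain ⟨⟨hwp, hwr⟩, hwz⟩ := hw1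
    have hpr : (Ideal.absNorm w.asIdeal).Prime := by
      by_contra h
      exact hw2 h
    have hwp' : w.valuation E (p : E) = 1 := by
      by_contra h
      exact hwp h
    have hwr' : ∀ i, w.valuation E (r i) = 1 := by
      intro i
      by_contra h
      exact hwr (Set.mem_iUnion.2 ⟨i, h⟩)
    refine ⟨?_, ?_, ?_⟩
    · intro hbz
      apply hwz
      refine Set.mem_biUnion hbz ?_
      show w.valuation E (algebraMap F E (a (bel F w) : F)) ≠ 1
      rw [valW]
      have h1 : (bel F w).valuation F (a (bel F w) : F) < 1 :=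
        ((bel F w).valuation_lt_one_iff_mem (K := F) (a (bel F w))).2 (ha _)
      have h2 : (bel F w).asIdeal.ramificationIdx' w.asIdeal ≠ 0 :=
        Ideal.IsDedekindDomain.ramificationIdx'_ne_zero_of_liesOver _ (bel F w).ne_bot
      exact (pow_lt_one₀ zero_le h1 h2).ne
    · have h1 : w.valuation E (algebraMap F E (p : F)) = 1 := by
        rw [map_natCast]
        exact hwp'
      rw [valW] at h1
      have h2 : (bel F w).asIdeal.ramificationIdx' w.asIdeal ≠ 0 :=
        Ideal.IsDedekindDomain.ramificationIdx'_ne_zero_of_liesOver _ (bel F w).ne_bot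
      exact (pow_eq_one_iff_of_nonneg zero_le h2).1 h1
    · intro i
      exact locPow_bel p w hpr (y i : F) (r i) (hr i) (hwr' i)
  have hpm : (0 : ℝ) < (p : ℝ) ^ m := by
    have : (0 : ℝ) < (p : ℝ) := by exact_mod_cast hp.pos
    positivity
  refine ⟨(C₁ + C₂ + hRfin.toFinset.card) / (p : ℝ) ^ m, fun s hs1 hs2 => ?_⟩
  have e1 := (abs_le.1 (hC₁ s hs1 hs2)).1
  have e2 := hC₂ s hs1 hs2
  have e3 : pz (Set.univ : Set (HeightOneSpectrum (𝓞 E))) s ≤
      pz (R ∪ P) s + pz (R ∪ P)ᶜ s := by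
    have h1 := pz_union (R ∪ P) (R ∪ P)ᶜ s hs1
    rwa [Set.union_compl_self] at h1
  have e4 := pz_union R P s hs1
  have e5 := pz_finite hRfin s hs1
  have e6 := pz_le (p ^ m) hE (R ∪ P)ᶜ A hW s hs1
  rw [Nat.cast_pow] at e6
  have e7 : Real.log (1 / (s - 1)) - (C₁ + C₂ + hRfin.toFinset.card) ≤ (p : ℝ) ^ m * pz A s := by
    linarith
  have e8 : 1 / (p : ℝ) ^ m * Real.log (1 / (s - 1)) - (C₁ + C₂ + hRfin.toFinset.card) / (p : ℝ) ^ m
      = (Real.log (1 / (s - 1)) - (C₁ + C₂ + hRfin.toFinset.card)) / (p : ℝ) ^ m := by ring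
  rw [e8, div_le_iff₀ hpm, mul_comm (pz A s)]
  exact e7

end Pool.Agent.Helper8.REC
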